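import Pool.Agent.Run7.k800g.FinG
import Pool.Agent.Run7.k800g.MassG
import Pool.Agent.Run7.k800.Sel

set_option autoImplicit false

/-!
# Small areas of closures of three-body shape curves

The planar three-body problem with masses `m 0, m 1, m 2`. For almost every choice of the masses,
every sufficiently small positive number is the area of the closure of the shape curve of a
solution that exists, without collisions, for all time.
-/

namespace Pool.Agent.Results.MP_1ba41f_an.AlmostAllMasses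

open MeasureTheory Set

/-- Euclidean three-space, which contains the shape sphere. -/
abbrev Space := EuclideanSpace ℝ (Fin 3)

/-- A solution, defined for all time and free of collisions, of the planar Newtonian three-body
problem `m i * q̈ i = ∑ m i * m j * (q j - q i) / |q j - q i|³`: there are functions `v` and `a`
with `q i' = v` and `v' = a`, and `a` satisfies Newton's equation. -/
structure IsSolution (m : Fin 3 → ℝ) (q : Fin 3 → ℝ → ℂ) : Prop where
  no_collision : ∀ t i j, i ≠ j → q i t ≠ q j t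
  newton : ∀ i, ∃ v a : ℝ → ℂ, (∀ t, HasDerivAt (q i) (v t) t) ∧ (∀ t, HasDerivAt v (a t) t) ∧
    ∀ t, (m i : ℂ) * a t = ∑ j ∈ Finset.univ.erase i,
      (m i * m j : ℂ) * (q j t - q i t) / ((‖q j t - q i t‖ ^ 3 : ℝ) : ℂ)

/-- The first mass-weighted Jacobi vector. -/
noncomputable def z1 (m : Fin 3 → ℝ) (q : Fin 3 → ℂ) : ℂ :=
  (Real.sqrt (m 0 * m 1 / (m 0 + m 1)) : ℂ) * (q 1 - q 0)

/-- The second mass-weighted Jacobi vector. -/
noncomputable def z2 (m : Fin 3 → ℝ) (q : Fin 3 → ℂ) : ℂ :=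
  (Real.sqrt (m 2 * (m 0 + m 1) / (m 0 + m 1 + m 2)) : ℂ) *
    (q 2 - (m 0 * q 0 + m 1 * q 1) / (m 0 + m 1))

/-- The vector `w = ((|z1|² - |z2|²)/2, Re (z1 * conj z2), Im (z1 * conj z2))`. -/
noncomputable def wvec (m : Fin 3 → ℝ) (q : Fin 3 → ℂ) : Space :=
  !₂[(‖z1 m q‖ ^ 2 - ‖z2 m q‖ ^ 2) / 2, (z1 m q * (starRingEnd ℂ) (z2 m q)).re,
    (z1 m q * (starRingEnd ℂ) (z2 m q)).im]

/-- The shape `w / (2 |w|)`, a point of the sphere of radius `1/2`. -/
noncomputable def shape (m : Fin 3 → ℝ) (q : Fin 3 → ℂ) : Space :=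
  (2 * ‖wvec m q‖)⁻¹ • wvec m q

/-- The standard surface measure of the sphere of radius `1/2`: one quarter of the surface measure
of the unit sphere, transported by the dilation with factor `1/2`. -/
noncomputable def area (s : Set Space) : ENNReal :=
  (1 / 4) * (volume : Measure Space).toSphere {y | (1 / 2 : ℝ) • (y : Space) ∈ s}

/-- The total area of the shape sphere is `π`. -/
theorem area_sphere : area (Metric.sphere 0 (1 / 2)) = ENNReal.ofReal Real.pi := by
  have h1 : {y : Metric.sphere (0 : Space) 1 | (1 / 2 : ℝ) • (y : Space) ∈ Metric.sphere 0 (1 / 2)}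
      = univ := by
    ext y
    simp only [mem_setOf_eq, mem_univ, iff_true]
    rw [mem_sphere_zero_iff_norm, norm_smul, mem_sphere_zero_iff_norm.mp y.2]
    norm_num
  unfold area
  rw [h1, Measure.toSphere_apply_univ, finrank_euclideanSpace_fin,
    EuclideanSpace.volume_ball_fin_three]
  have h2 : (1 / 4 : ENNReal) = ENNReal.ofReal (1 / 4) := by
    rw [ENNReal.ofReal_div_of_pos (by norm_num)]
    simp
  have h3 : ((3 : ℕ) : ENNReal) = ENNReal.ofReal 3 := by simp
  rw [h2, h3, ← ENNReal.ofReal_pow (by norm_num), ← ENNReal.ofReal_mul (by norm_num),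
    ← ENNReal.ofReal_mul (by norm_num), ← ENNReal.ofReal_mul (by norm_num)]
  congr 1
  ring

/-- For Lebesgue-almost all masses: if they are positive then there is a positive number `A₁` such
that every `A₀` in `(0, A₁)` is the area of the closure of the shape curve of a solution with these
masses and with center of mass at the origin. -/
theorem result : ∀ᵐ m : Fin 3 → ℝ, (∀ i, 0 < m i) →
    ∃ A₁ : ℝ, 0 < A₁ ∧ ∀ A₀, 0 < A₀ → A₀ < A₁ → ∃ q : Fin 3 → ℝ → ℂ,
      IsSolution m q ∧ (∀ t, ∑ i, m i * q i t = 0) ∧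
      area (closure (range (fun t => shape m (fun i => q i t)))) = ENNReal.ofReal A₀ := by
  filter_upwards [Run7.k800g.ae_masses] with m hm hpos
  obtain ⟨e, d1, d2, F0, G, h, hK, hacc⟩ := hm hpos
  have p0 := hpos 0
  have p1 := hpos 1
  have p2 := hpos 2
  obtain ⟨a1, ha1⟩ : ∃ a1, a1 = Real.sqrt (m 0 * m 1 / (m 0 + m 1)) := ⟨_, rfl⟩
  obtain ⟨a2, ha2⟩ : ∃ a2, a2 = Real.sqrt (m 2 * (m 0 + m 1) / (m 0 + m 1 + m 2)) := ⟨_, rfl⟩
  have ha1p : 0 < a1 := by rw [ha1]; apply Real.sqrt_pos.mpr; positivity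
  have ha2p : 0 < a2 := by rw [ha2]; apply Real.sqrt_pos.mpr; positivity
  obtain ⟨A1, hA1, hA⟩ := Run7.k800g.mainG h hK hacc (c := a2 / a1) (by positivity)
  refine ⟨A1, hA1, fun A0 h00 h01 => ?_⟩
  obtain ⟨q, w, q1, q2, q3, q4, q5⟩ := hA A0 h00 h01
  have hm3 : ![m 0, m 1, m 2] = m := by
    funext i
    fin_cases i <;> rfl
  rw [hm3] at q2
  refine ⟨q, ⟨q1, q2⟩, ?_, ?_⟩
  · intro t
    rw [Fin.sum_univ_three]
    exact q3 t
  · have e : (fun t => shape m (fun i => q i t))
        = fun t => Run7.k800.Sph (a2 / a1) (w t).re (w t).im := by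
      funext t
      have hX : q 1 t - q 0 t ≠ 0 := sub_ne_zero.mpr (q1 t 1 0 (by decide))
      rw [← Run7.k800.hv_eq ha1p ha2p hX]
      have e1 : z1 m (fun i => q i t) = a1 * (q 1 t - q 0 t) := by
        rw [ha1]; rfl
      have e2 : z2 m (fun i => q i t) = a2 * ((q 1 t - q 0 t) * w t) := by
        rw [← q4 t, ha2]
        rfl
      unfold shape wvec Run7.k800.hv
      rw [e1, e2]
    rw [e]
    exact q5

end Pool.Agent.Results.MP_1ba41f_an.AlmostAllMasses
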