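import Pool.Agent.Run7.h800.Fin

set_option autoImplicit false

/-!
# Small areas of closures of three-body shape curves

The planar three-body problem with masses `m, m, M`, where the mass ratio `M / m` lies in a certain
open interval: every sufficiently small positive number is the area of the closure of the shape
curve of a solution that exists, without collisions, for all time.
-/

namespace Pool.Agent.Results.MP_1ba41f_an.SmallAreas

open MeasureTheory Set

/-- Euclidean three-space, which contains the shape sphere. -/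
abbrev Space := EuclideanSpace ℝ (Fin 3)

/-- A solution, defined for all time and free of collisions, of the planar Newtonian three-body
problem `m i * q̈ i = ∑ m i * m j * (q j - q i) / |q j - q i|³`: there are functions `v` and `a`
with `q i' = v` and `v' = a`, and `a` satisfies Newton's equation. -/
structure IsSolution (m : Fin 3 → ℝ) (q : Fin 3 → ℝ → ℂ) : Prop where
  no_collision : ∀ t i j, i ≠ j → q i t ≠ q j t
  newton : ∀ i, ∃ v a : ℝ → ℂ, (∀ t, HasDerivAt (q i) (v t) t) ∧ (∀ t, HasDerivAt v (a t) t) ∧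
    ∀ t, (m i : ℂ) * a t = ∑ j ∈ Finset.univ.erase i,
      (m i * m j : ℂ) * (q j t - q i t) / ((‖q j t - q i t‖ ^ 3 : ℝ) : ℂ)

/-- The first mass-weighted Jacobi vector. -/
noncomputable def z1 (m : Fin 3 → ℝ) (q : Fin 3 → ℂ) : ℂ :=
  (Real.sqrt (m 0 * m 1 / (m 0 + m 1)) : ℂ) * (q 1 - q 0)

/-- The second mass-weighted Jacobi vector. -/
noncomputable def z2 (m : Fin 3 → ℝ) (q : Fin 3 → ℂ) : ℂ :=
  (Real.sqrt (m 2 * (m 0 + m 1) / (m 0 + m 1 + m 2)) : ℂ) *
    (q 2 - (m 0 * q 0 + m 1 * q 1) / (m 0 + m 1))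

/-- The vector `w = ((|z1|² - |z2|²)/2, Re (z1 * conj z2), Im (z1 * conj z2))`. -/
noncomputable def wvec (m : Fin 3 → ℝ) (q : Fin 3 → ℂ) : Space :=
  !₂[(‖z1 m q‖ ^ 2 - ‖z2 m q‖ ^ 2) / 2, (z1 m q * (starRingEnd ℂ) (z2 m q)).re,
    (z1 m q * (starRingEnd ℂ) (z2 m q)).im]

/-- The shape `w / (2 |w|)`, a point of the sphere of radius `1/2`. -/
noncomputable def shape (m : Fin 3 → ℝ) (q : Fin 3 → ℂ) : Space :=
  (2 * ‖wvec m q‖)⁻¹ • wvec m q

/-- The standard surface measure of the sphere of radius `1/2`: one quarter of the surface measure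
of the unit sphere, transported by the dilation with factor `1/2`. -/
noncomputable def area (s : Set Space) : ENNReal :=
  (1 / 4) * (volume : Measure Space).toSphere {y | (1 / 2 : ℝ) • (y : Space) ∈ s}

/-- The total area of the shape sphere is `π`. -/
theorem area_sphere : area (Metric.sphere 0 (1 / 2)) = ENNReal.ofReal Real.pi := by
  have h1 : {y : Metric.sphere (0 : Space) 1 | (1 / 2 : ℝ) • (y : Space) ∈ Metric.sphere 0 (1 / 2)}
      = univ := by
    ext y
    simp only [mem_setOf_eq, mem_univ, iff_true]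
    rw [mem_sphere_zero_iff_norm, norm_smul, mem_sphere_zero_iff_norm.mp y.2]
    norm_num
  unfold area
  rw [h1, Measure.toSphere_apply_univ, finrank_euclideanSpace_fin,
    EuclideanSpace.volume_ball_fin_three]
  have h2 : (1 / 4 : ENNReal) = ENNReal.ofReal (1 / 4) := by
    rw [ENNReal.ofReal_div_of_pos (by norm_num)]
    simp
  have h3 : ((3 : ℕ) : ENNReal) = ENNReal.ofReal 3 := by simp
  rw [h2, h3, ← ENNReal.ofReal_pow (by norm_num), ← ENNReal.ofReal_mul (by norm_num),
    ← ENNReal.ofReal_mul (by norm_num), ← ENNReal.ofReal_mul (by norm_num)]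
  congr 1
  ring

/-- There is a nonempty open interval of mass ratios `ρ` such that, for masses `m, m, ρ * m`, every
sufficiently small positive number is the area of the closure of the shape curve of a solution. -/
theorem result : ∃ a b : ℝ, 0 < a ∧ a < b ∧ ∀ ρ, a < ρ → ρ < b → ∀ m : ℝ, 0 < m →
    ∃ A₁ : ℝ, 0 < A₁ ∧ ∀ A₀, 0 < A₀ → A₀ < A₁ → ∃ q : Fin 3 → ℝ → ℂ,
      IsSolution ![m, m, ρ * m] q ∧
      (∀ t, m * q 0 t + m * q 1 t + (ρ * m : ℝ) * q 2 t = 0) ∧
      area (closure (range (fun t => shape ![m, m, ρ * m] (fun i => q i t)))) = ENNReal.ofReal A₀ := by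
  obtain ⟨ka, kb, h1, h2, h3, hmain⟩ := Run7.h800.main
  refine ⟨(8 - kb) / (4 * (kb - 1)), (8 - ka) / (4 * (ka - 1)), ?_, ?_, ?_⟩
  · apply div_pos <;> linarith
  · rw [div_lt_div_iff₀ (by linarith) (by linarith)]
    nlinarith
  intro ρ hρ1 hρ2 m hm
  rw [div_lt_iff₀ (by linarith)] at hρ1
  rw [lt_div_iff₀ (by linarith)] at hρ2
  have hρ : 0 < ρ := by
    by_contra hcon
    push Not at hcon
    nlinarith
  have hM : 0 < ρ * m := by positivity
  obtain ⟨k, hk⟩ : ∃ k, k = (16 + 8 * ρ) / (2 + 8 * ρ) := ⟨_, rfl⟩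
  have hk' : k * (2 + 8 * ρ) = 16 + 8 * ρ := by rw [hk]; field_simp
  have hka : ka < k := by
    rw [hk, lt_div_iff₀ (by positivity)]
    linarith
  have hkb : k < kb := by
    rw [hk, div_lt_iff₀ (by positivity)]
    linarith
  obtain ⟨a1, ha1⟩ : ∃ a1, a1 = Real.sqrt (m * m / (m + m)) := ⟨_, rfl⟩
  obtain ⟨a2, ha2⟩ : ∃ a2, a2 = Real.sqrt (ρ * m * (m + m) / (m + m + ρ * m)) := ⟨_, rfl⟩
  have ha1p : 0 < a1 := by rw [ha1]; apply Real.sqrt_pos.mpr; positivity
  have ha2p : 0 < a2 := by rw [ha2]; apply Real.sqrt_pos.mpr; positivity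
  obtain ⟨A1, hA1, hA⟩ := hmain m (ρ * m) (2 * m + 8 * (ρ * m)) k hm hM rfl (by
    linear_combination m * hk') hka hkb (a2 / a1) (by positivity)
  refine ⟨A1, hA1, fun A0 h00 h01 => ?_⟩
  obtain ⟨q, w, q1, q2, q3, q4, q5⟩ := hA A0 h00 h01
  refine ⟨q, ⟨q1, q2⟩, ?_, ?_⟩
  · intro t
    have := q3 t
    push_cast at this ⊢
    exact this
  · have e : (fun t => shape ![m, m, ρ * m] (fun i => q i t))
        = fun t => Run7.h800.Sph (a2 / a1) (w t).re (w t).im := by
      funext t
      have hX : q 1 t - q 0 t ≠ 0 := sub_ne_zero.mpr (q1 t 1 0 (by decide))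
      rw [← Run7.h800.hv_eq ha1p ha2p hX]
      have e1 : z1 ![m, m, ρ * m] (fun i => q i t) = a1 * (q 1 t - q 0 t) := by
        rw [ha1]; rfl
      have e2 : z2 ![m, m, ρ * m] (fun i => q i t) = a2 * ((q 1 t - q 0 t) * w t) := by
        rw [← q4 t, ha2]
        rfl
      unfold shape wvec Run7.h800.hv
      rw [e1, e2]
    rw [e]
    exact q5

end Pool.Agent.Results.MP_1ba41f_an.SmallAreas
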